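import Pool.Agent.Q215.IHT

/-!
# All idempotent ultrafilters decide the `Σ⁰₃` facts, by computable IP* sets

For every `Σ⁰₃` set `S` there is a computable sequence of sets `A n` such that `A n` is an IP* set if
`n ∈ S` and its complement is an IP* set if `n ∉ S`; so every idempotent ultrafilter contains `A n`
if and only if `n ∈ S`. The sequences are the sections of one computable relation. The definitions
are in `Pool/Agent/Q215/IHT.lean`.
-/

set_option autoImplicit false

namespace Pool.Agent.Results.MP_69fea5_lc.IdempotentsDecideSigmaThree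

open Pool.Agent.Q215.IHT

/-- There is a computable sequence `d` of colourings of the natural numbers with `2` colours such
that for every `Σ⁰₃` set `S` (presented by a computable `R`) there is `e` such that for all `n` the
set `{l | d ⟨e, n⟩ l = true}` is an IP* set if `n ∈ S`, its complement is an IP* set if `n ∉ S`, and
it belongs to an arbitrary idempotent ultrafilter if and only if `n ∈ S`. -/
theorem result :
    ∃ d : ℕ → ℕ → Bool, Computable (fun q : ℕ × ℕ => d q.1 q.2) ∧
      ∀ R : ℕ → ℕ → ℕ → ℕ → Bool,
        Computable (fun q : ℕ × ℕ × ℕ × ℕ => R q.1 q.2.1 q.2.2.1 q.2.2.2) →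
        ∃ e, ∀ n, (n ∈ Sigma3 R → IPStar {l | d (Nat.pair e n) l = true}) ∧
          (n ∉ Sigma3 R → IPStar {l | d (Nat.pair e n) l = false}) ∧
          ∀ U : Ultrafilter ℕ, IdempotentUltrafilter U →
            ({l | d (Nat.pair e n) l = true} ∈ U ↔ n ∈ Sigma3 R) :=
  ⟨dd, c_dd, fun _ hR => part3 hR⟩

end Pool.Agent.Results.MP_69fea5_lc.IdempotentsDecideSigmaThree
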