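import Pool.Agent.Q215.IHT

/-!
# The iterated Hindman theorem for sums of at most three terms

All solutions of one computable instance of the iterated Hindman theorem compute `0'''`, already for
sums of at most three terms. The definitions are in `Pool/Agent/Q215/IHT.lean`.
-/

set_option autoImplicit false

namespace Pool.Agent.Results.MP_69fea5_lc.IteratedThreeSums

open Pool.Agent.Q215.IHT

/-- There are computable sequences `c`, `d` of colourings of the natural numbers with `4` and with
`2` colours such that for every `Σ⁰₃` set `S` (presented by a computable `R`) every solution of `c`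
for sums of at most three elements computes `S`, and every solution of `d` computes `S`. -/
theorem result :
    ∃ (c : ℕ → ℕ → Fin 4) (d : ℕ → ℕ → Bool), Computable (fun q : ℕ × ℕ => c q.1 q.2) ∧
      Computable (fun q : ℕ × ℕ => d q.1 q.2) ∧
      ∀ R : ℕ → ℕ → ℕ → ℕ → Bool,
        Computable (fun q : ℕ × ℕ × ℕ × ℕ => R q.1 q.2.1 q.2.2.1 q.2.2.2) →
        (∀ x, SolvesIHT3 c x → TuringReducible (char (Sigma3 R)) (char (Set.range x))) ∧
        ∀ x, SolvesIHT d x → TuringReducible (char (Sigma3 R)) (char (Set.range x)) :=
  ⟨cc4, dd, c_cc4, c_dd, fun _ hR => ⟨part1 hR, part2 hR⟩⟩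

end Pool.Agent.Results.MP_69fea5_lc.IteratedThreeSums
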