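import Pool.Agent.Q202.NH.Final
import Pool.Agent.Results.MP_69fea5_lc.DoubleJump

/-!
# Hindman's theorem: changes of a colouring on a random set

Let `D` be a random set of natural numbers; the events `m ∈ D` are independent.

1. If the probabilities are at least `δ m`, where `δ` is nonincreasing and `∑ δ(m) ^ r = ∞` for all
`r` (for instance `1 / log m`), then almost surely every colouring of the natural numbers that is
constant on `D` has a solution which is computable in the colouring.
2. If the sum of the `r`-th powers of the probabilities is finite for some `r` (for instance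
`m ^ (-a)`, `a > 0`), then `D` is almost surely thin.
3. For a thin set `D` and all colourings `c`, `e` that agree outside `D`, every solution of `e`
computes together with `c` a solution of `c`.
4. Some computable colouring `c` stays as strong as `0''` under all changes on thin sets.

For nonincreasing probabilities (1) or (2) applies: a threshold.
-/

set_option autoImplicit false

namespace Pool.Agent.Results.MP_69fea5_lc.RandomSets

open MeasureTheory ProbabilityTheory
open Pool.Agent.Helper446.Defs Pool.Agent.Q202.NH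

/-- **Hindman's theorem and changes on random sets.** -/
theorem result :
    (∀ (Ω : Type) [MeasurableSpace Ω] (μ : Measure Ω) [IsProbabilityMeasure μ] (D : ℕ → Set Ω),
      (∀ m, MeasurableSet (D m)) → iIndepSet D μ →
      ((∃ δ : ℕ → ℝ, Antitone δ ∧ (∀ m, 0 ≤ δ m) ∧ (∀ r : ℕ, ¬ Summable fun m => δ m ^ r) ∧
          ∀ m, δ m ≤ μ.real (D m)) →
        ∀ᵐ ω ∂μ, ∀ (k : ℕ) (c : ℕ → Fin k) (i : Fin k), (∀ m, ω ∈ D m → c m = i) →
          ∃ X : Set ℕ, Solution c i X ∧ TuringReducible (chi X) (chi (graph c))) ∧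
      (∀ r : ℕ, (Summable fun m => μ.real (D m) ^ r) → ∀ᵐ ω ∂μ, Thin r {m | ω ∈ D m})) ∧
    (∀ (r : ℕ) (D : Set ℕ), Thin r D → ∀ (k : ℕ) (c e : ℕ → Fin k), (∀ m, m ∉ D → e m = c m) →
      ∀ (i : Fin k) (X : Set ℕ), Solution e i X → ∃ Y : Set ℕ, Solution c i Y ∧
        Sums Y ⊆ Sums X ∧ TuringReducible (chi Y) (chi (join X (graph c)))) ∧
    ∃ c : ℕ → Fin 8, Computable c ∧ ∀ (r : ℕ) (D : Set ℕ), Thin r D →
      ∀ e : ℕ → Fin 8, (∀ m, m ∉ D → e m = c m) → ∀ (i : Fin 8) (X : Set ℕ), Solution e i X →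
        ∀ R : ℕ → ℕ → ℕ → Bool, Computable (fun q : ℕ × ℕ × ℕ => R q.1 q.2.1 q.2.2) →
          TuringReducible (chi {n | ∃ a, ∀ b, R n a b = true}) (chi X) := by
  refine ⟨?_, ?_, ?_⟩
  · intro Ω _ μ _ D hD hi
    refine ⟨?_, fun r hr => thin hD hi r hr⟩
    rintro ⟨δ, h1, h2, h3, h4⟩
    exact easy hD hi h1 h2 h3 h4
  · intro r D hD k c e hec i X hX
    exact descend (hD.few hec) hX
  · obtain ⟨c, hc, h⟩ := Pool.Agent.Results.MP_69fea5_lc.DoubleJump.result
    refine ⟨c, hc, fun r D hD e hec i X hX R hR => ?_⟩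
    obtain ⟨Y, h1, -, h3⟩ := descend (hD.few hec) hX
    have h4 : TuringReducible (chi {n | ∃ a, ∀ b, R n a b = true}) (chi Y) :=
      h Y h1.1 h1.2.1 ⟨i, fun F hF hne _ => h1.2.2 F hF hne⟩ R hR
    exact h4.trans (h3.trans (join_le hc X))

end Pool.Agent.Results.MP_69fea5_lc.RandomSets
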