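import Pool.Agent.Q205.HT.Main

/-!
A computable colouring of the positive integers with 8 colours such that every infinite set which
is homogeneous for sums of at most three distinct elements computes a function which is
diagonally noncomputable relative to the triple jump `0'''`; in particular no such set is `Σ⁰₄`.
-/

namespace Pool.Agent.Results.MP_69fea5_lc.SumsOfThree

open Pool.Agent.H645R2.HT Pool.Agent.TH747.HS Pool.Agent.Q205.HT

/-- The characteristic function of a set of natural numbers, as a (total) partial function. -/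
noncomputable def char (B : Set ℕ) : ℕ →. ℕ := by
  classical exact fun n => Part.some (if n ∈ B then 1 else 0)

/-- There is a computable colouring `c` of the positive integers with `8` colours such that for
every infinite set `X` of positive integers, all of whose sums of at most three distinct elements
get the same colour:
* for every `Σ⁰₄` relation `G q m` (given by a computable `R`), there is a function `f` computable
  in `X` such that for no `q` is `f q` the only `m` with `G q m`;
* `X` is not a `Σ⁰₄` set.

If `G` is the graph of the diagonal partial function computable in `0'''`, then `f` is diagonally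
noncomputable relative to `0'''`. -/
theorem result :
    ∃ c : ℕ → Fin 8, Computable c ∧
      ∀ X : Set ℕ, X.Infinite → 0 ∉ X →
        (∃ i, ∀ F : Finset ℕ, (F : Set ℕ) ⊆ X → F.Nonempty → F.card ≤ 3 →
          c (∑ n ∈ F, n) = i) →
        (∀ R : ℕ → ℕ → ℕ → ℕ → ℕ → ℕ → Bool,
          Computable (fun x : ℕ × ℕ × ℕ × ℕ × ℕ × ℕ =>
            R x.1 x.2.1 x.2.2.1 x.2.2.2.1 x.2.2.2.2.1 x.2.2.2.2.2) →
          ∃ f : ℕ → ℕ, TuringReducible (fun n => Part.some (f n)) (char X) ∧
            ∀ q, ¬ ∀ m, (∃ a, ∀ b, ∃ t, ∀ u, R q m a b t u = true) ↔ m = f q) ∧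
        ∀ R : ℕ → ℕ → ℕ → ℕ → ℕ → Bool,
          Computable (fun x : ℕ × ℕ × ℕ × ℕ × ℕ => R x.1 x.2.1 x.2.2.1 x.2.2.2.1 x.2.2.2.2) →
          X ≠ {n | ∃ a, ∀ b, ∃ t, ∀ u, R n a b t u = true} := by
  classical
  refine ⟨c3, c_c3, fun X hinf h0 hc => ⟨fun R hR => ?_, fun R hR hX => ?_⟩⟩
  · obtain ⟨f, hf1, hf2⟩ := dnc3 hinf h0 hc hR
    exact ⟨f, Pool.Agent.Helper446.Oracle.turingReducible_fun_iff.2 hf1, hf2⟩
  · refine Pool.Agent.Q205.HT.no_sigma4 hinf h0 hc hR fun n => ?_
    conv_lhs => rw [hX]
    rfl

end Pool.Agent.Results.MP_69fea5_lc.SumsOfThree
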